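import Pool.Agent.H708R2.EulerModes.Main

/-!
# Euler on `𝕋³`: no finite number of Fourier modes of the initial velocity can decide blow-up

For every divergence-free `u₀ ∈ L²(𝕋³)`, every `K` and every `s, ε > 0` there is a smooth velocity
`v` which has the same Fourier coefficients as `u₀` at all frequencies `l` with `|l i| ≤ K` and is
`ε`-close to `u₀` in `H^{-s}`, and whose Euler solution is smooth for all times (it is even steady).
-/

open MeasureTheory Set Pool.Agent.H708R2.EulerSign Pool.Agent.H708R2.EulerModes
open scoped ContDiff

namespace Pool.Agent.Results.MP_b0497c_an.FiniteModes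

/-- Let `u₀` be a `2π`-periodic square-integrable vector field on `ℝ³` whose divergence vanishes in
the sense of distributions (for instance an element of `H^m`). For every `K` and all `s, ε > 0`
there is a `C^∞` field `v` such that

* `(v, 0)`, independent of time, is a classical solution of the Euler equations on `𝕋³` for all
  times;
* `v` and `u₀` have the same Fourier coefficients at all frequencies `l` with `|l i| ≤ K`;
* the distance of `v` and `u₀` in `H^{-s}` is at most `ε`;
* every classical solution on a time interval `[0, T)` which is equal to `v` at one time is equal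
  to `v` at all times. -/
theorem result (u₀ : V → V) (hper : Periodic3 u₀) (hL2 : MemLp u₀ 2 (volume.restrict cube))
    (hdiv : WeakDivFree u₀) (K : ℕ) (s ε : ℝ) (hs : 0 < s) (hε : 0 < ε) :
    ∃ v : V → V, ContDiff ℝ ∞ v ∧ IsClassicalSolution univ (fun _ => v) (fun _ _ => 0) ∧
      SameModes K v u₀ ∧ HNegClose s ε v u₀ ∧
      (∀ (T : ℝ) (w : ℝ → V → V) (q : ℝ → V → ℝ), IsClassicalSolution (Ico 0 T) w q →
        ∀ t₀ ∈ Ico 0 T, w t₀ = v → ∀ t ∈ Ico 0 T, w t = v) :=
  main u₀ hper hL2 hdiv K s ε hs hε

end Pool.Agent.Results.MP_b0497c_an.FiniteModes
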