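import Pool.Agent.H708R2.EulerSign.Main

/-!
# Euler on `𝕋³`: one-sided invariants or real spectrum of `∇u₀` give global regularity

The velocity gradient of an incompressible flow has the two invariants `Q = -tr((∇u)²)/2` and
`R = -det ∇u`. We show: if at some time neither `Q` nor `R` changes sign on `𝕋³`, or if at some
time all eigenvalues of `∇u` are real at all points, then the classical solution is global, smooth,
with constant pressure, and with explicit bounds; and this characterises the flows with constant
pressure.
-/

open MeasureTheory Set Pool.Agent.H708R2.EulerSign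

namespace Pool.Agent.Results.MP_b0497c_an.OneSidedInvariants

/-- Let `v : ℝ³ → ℝ³` be `2π`-periodic, divergence-free and of class `C^n`, `1 ≤ n ≤ ∞`.

(1) The following are equivalent:
* all eigenvalues of `∇v(x)` are real, for all `x`;
* neither `Q` nor `R` takes values of both signs;
* the pair `(Q, R)` is one-sided (lexicographically, in some linear coordinates);
* `(∇v)³ = 0` everywhere;
* on some time interval `[0, T)` there is a classical solution of the Euler equations with initial
  velocity `v` and spatially constant pressure.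

(2) If these conditions hold then there is `u : ℝ × ℝ³ → ℝ³` of class `C^n` with `u(0) = v` which
is, with zero pressure, a classical solution of the Euler equations on `𝕋³` for all times `t ∈ ℝ`;
it is given by `u(t, a + t v(a)) = v(a)`, its gradient is `∇u(t, a + t v(a)) = ∇v(a) - t (∇v(a))²`,
for each `m ≤ n` its `H^m` norm is bounded on bounded time intervals, and every classical solution
on a time interval `[0, T)` which has the velocity `v` at one time `t₀ ∈ [0, T)` is the restriction
of the time-translate of `u`. -/
theorem result (n : ℕ∞) (hn : 1 ≤ n) (v : V → V) (hv : ContDiff ℝ n v) (hp : Periodic3 v)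
    (hdiv : ∀ x, divergence v x = 0) :
    List.TFAE [
      RealSpectrum v,
      KeepsSign (invQ v) ∧ KeepsSign (invR v),
      OneSided v,
      ∀ x, grad v x * grad v x * grad v x = 0,
      ∃ T : ℝ, 0 < T ∧ ∃ (w : ℝ → V → V) (q : ℝ → V → ℝ), IsClassicalSolution (Ico 0 T) w q ∧
        w 0 = v ∧ ∀ t ∈ Ico 0 T, ∀ x, fderiv ℝ (q t) x = 0] ∧
    (OneSided v →
      ∃ u : ℝ → V → V, ContDiff ℝ n (fun z : ℝ × V => u z.1 z.2) ∧ u 0 = v ∧
        IsClassicalSolution univ u (fun _ _ => 0) ∧
        (∀ t a, u t (a + t • v a) = v a) ∧
        (∀ t a, grad (u t) (a + t • v a) = grad v a - t • (grad v a * grad v a)) ∧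
        (∀ m : ℕ, m ≤ n → ∀ T : ℝ, ∃ C : ℝ, ∀ t, |t| ≤ T → sobolevSq m (u t) ≤ C) ∧
        (∀ (T : ℝ) (w : ℝ → V → V) (q : ℝ → V → ℝ), IsClassicalSolution (Ico 0 T) w q →
          ∀ t₀ ∈ Ico 0 T, w t₀ = v → ∀ t ∈ Ico 0 T, w t = u (t - t₀))) :=
  main n hn v hv hp hdiv

end Pool.Agent.Results.MP_b0497c_an.OneSidedInvariants
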