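import Pool.Agent.H708R2.EulerTypeI.Defs2
import Pool.Agent.H708R2.EulerTypeI.SemiMain

/-!
# Euler flows whose pressure Hessian is bounded below: stretching rate and blow-up rate
-/

open MeasureTheory Set

namespace Pool.Agent.Results.MP_b0497c_an.PressureBoundedBelow

open Pool.Agent.H708R2.EulerSign Pool.Agent.H708R2.EulerTypeI

/-- If `Δp / 2 + ξ · (D²p) ξ ≥ -m` on `(0, T)` (for instance if `D²p ≥ -2m/5`), then the stretching
rate of the vorticity is at most `|ω| / √11 + √(4m/7) + 4/(7t)`, and unless the vorticity is bounded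
on `[0, T)` one has `sup |ω(t)| ≥ √11 c / (exp (c (T - t)) - 1)`, `c = √(4m/7) + 4/(7t)`, for every
`t` in `(0, T)`. -/
theorem result (T m : ℝ) (u : ℝ → V → V) (p : ℝ → V → ℝ) (hm0 : 0 ≤ m) (h : IsC2Solution T u p)
    (hm : ∀ t ∈ Ioo 0 T, ∀ x, PressureBelow m (vort (u t) x) (hess (p t) x)) :
    (∀ t ∈ Ioo 0 T, ∀ x, vort (u t) x ⬝ᵥ (grad (u t) x).mulVec (vort (u t) x)
      ≤ (nrm (vort (u t) x) / Real.sqrt 11 + rateC m t) * (vort (u t) x ⬝ᵥ vort (u t) x)) ∧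
    ((∃ M : ℝ, ∀ t ∈ Ico 0 T, ∀ x, nrm (vort (u t) x) ≤ M) ∨
      ∀ t ∈ Ioo 0 T, ∀ Z, Z < Real.sqrt 11 * rateC m t / (Real.exp (rateC m t * (T - t)) - 1) →
        ∃ x, Z < nrm (vort (u t) x)) :=
  semi_main h hm0 hm

end Pool.Agent.Results.MP_b0497c_an.PressureBoundedBelow
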