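import Pool.Agent.H708R2.EulerTypeI.Defs
import Pool.Agent.H708R2.EulerTypeI.Main
import Pool.Agent.H708R2.EulerTypeI.Sharp

/-!
# Type I singularities of the Euler equations: the sharp threshold for the pressure Hessian
-/

open MeasureTheory Set
open scoped ENNReal Topology

namespace Pool.Agent.Results.MP_b0497c_an.TypeIThreshold

open Pool.Agent.H708R2.EulerSign Pool.Agent.H708R2.EulerTypeI

/-- Periodic classical solutions on `[0, T)` for which
`(T - t)² |D²p ω| ≤ (2 - κ / log (1/(T - t))) |ω|` near `T` with some `κ > 3` have a finite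
Beale-Kato-Majda integral; for non-periodic solutions, linear in `x`, this fails for each
`κ < 3`. -/
theorem result :
    (∀ (T κ : ℝ) (u : ℝ → V → V) (p : ℝ → V → ℝ), 0 < T → 3 < κ → IsC2Solution T u p →
      (∀ᶠ t in 𝓝[<] T, ∀ x, (T - t) ^ 2 * nrm ((hess (p t) x).mulVec (vort (u t) x))
        ≤ (2 - κ / Real.log (1 / (T - t))) * nrm (vort (u t) x)) →
      (∃ C : ℝ, ∀ᶠ t in 𝓝[<] T, ∀ x,
        nrm (vort (u t) x) ≤ C / ((T - t) * Real.log (1 / (T - t)) ^ (κ / 3))) ∧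
      BKMFinite T u) ∧
    (∀ T κ : ℝ, 0 < T → κ < 3 → ∃ (u : ℝ → V → V) (p : ℝ → V → ℝ), IsSpaceSolution T u p ∧
      (∀ t, ∃ A : Matrix (Fin 3) (Fin 3) ℝ, ∀ x, u t x = A.mulVec x) ∧
      (∀ᶠ t in 𝓝[<] T, ∀ x, (T - t) ^ 2 * nrm ((hess (p t) x).mulVec (vort (u t) x))
        ≤ (2 - κ / Real.log (1 / (T - t))) * nrm (vort (u t) x)) ∧
      ¬ BKMFinite T u) :=
  ⟨fun _ _ _ _ hT hκ h hyp => type_one hT h hκ hyp,
    fun T _ hT hκ => ⟨uf T, pf T, uf_solution T,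
      fun t => ⟨Af T t, fun x => congrFun (uf_eq T t) x⟩, uf_hyp hT hκ, uf_not_bkm hT⟩⟩

end Pool.Agent.Results.MP_b0497c_an.TypeIThreshold
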